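import Mathlib

set_option autoImplicit false

open Finset

namespace Pool.Agent.Lib.MP_8629a4_co

variable {I G : Type*} [DecidableEq I] [AddCommGroup G]

lemma hall_chain (K : G) (p : I) (m : ℕ) : ∀ (a c : I ≃ G) (s : I), p ≠ s →
    ((fun i => a.symm (K - c i))^[m + 1] s = p ∨ (fun i => a.symm (K - c i))^[m + 1] s = s) →
    (∀ t, 1 ≤ t → t ≤ m → (fun i => a.symm (K - c i))^[t] s ≠ p ∧
      (fun i => a.symm (K - c i))^[t] s ≠ s) →
    ∃ a' c' : I ≃ G, (∀ i, i ≠ p → i ≠ s → c' i - a' i = c i - a i) ∧
      c' s - a' s = c p + c s - K := by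
  induction m with
  | zero =>
    intro a c s hps h _
    simp only [zero_add, Function.iterate_one, Equiv.symm_apply_eq] at h
    rcases h with h | h
    · refine ⟨(Equiv.swap p s).trans a, (Equiv.swap p s).trans c, fun i h1 h2 => ?_, ?_⟩
      · simp [Equiv.swap_apply_of_ne_of_ne h1 h2]
      · simp only [Equiv.trans_apply, Equiv.swap_apply_right, ← h]; abel
    · refine ⟨a, (Equiv.swap p s).trans c, fun i h1 h2 => ?_, ?_⟩
      · simp [Equiv.swap_apply_of_ne_of_ne h1 h2]
      · simp only [Equiv.trans_apply, Equiv.swap_apply_right, ← h]; abel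
  | succ m ih =>
    intro a c s hps h hmin
    set ρ : I → I := fun i => a.symm (K - c i) with hρ
    have hinj : Function.Injective ρ := by
      intro i j hij
      simpa [hρ] using hij
    set r := ρ s with hr
    have hr1 : r ≠ p ∧ r ≠ s := by simpa using hmin 1 le_rfl (by omega)
    have har : a r = K - c s := by simp [hr, hρ]
    let a1 : I ≃ G := (Equiv.swap s r).trans a
    let c1 : I ≃ G := (Equiv.swap p s).trans c
    set ρ1 : I → I := fun i => a1.symm (K - c1 i) with hρ1
    have hρ1' : ∀ i, ρ1 i = Equiv.swap s r (ρ (Equiv.swap p s i)) := by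
      intro i
      simp [hρ1, a1, c1, hρ]
    have hne : ∀ t, 1 ≤ t → t ≤ m + 1 → ρ^[t + 1] s ≠ r := by
      intro t h1 h2 he
      rw [Function.iterate_succ_apply', hr] at he
      exact (hmin t h1 h2).2 (hinj he)
    have hit : ∀ t, t ≤ m → ρ1^[t] r = ρ^[t + 1] s := by
      intro t
      induction t with
      | zero => intro _; simp [hr]
      | succ t iht =>
        intro ht
        rw [Function.iterate_succ_apply', iht (by omega), hρ1']
        obtain ⟨h1, h2⟩ := hmin (t + 1) (by omega) (by omega)
        rw [Equiv.swap_apply_of_ne_of_ne h1 h2, ← Function.iterate_succ_apply' ρ]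
        exact Equiv.swap_apply_of_ne_of_ne (hmin (t + 2) (by omega) (by omega)).2
          (hne (t + 1) (by omega) (by omega))
    have hlast : ρ1^[m + 1] r = Equiv.swap s r (ρ^[m + 1 + 1] s) := by
      rw [Function.iterate_succ_apply', hit m le_rfl, hρ1']
      obtain ⟨h1, h2⟩ := hmin (m + 1) (by omega) le_rfl
      rw [Equiv.swap_apply_of_ne_of_ne h1 h2, ← Function.iterate_succ_apply' ρ]
    obtain ⟨a', c', h1, h2⟩ := ih a1 c1 r hr1.1.symm
      (by
        rw [hlast]
        rcases h with h | h
        · left; rw [h]; exact Equiv.swap_apply_of_ne_of_ne hps hr1.1.symm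
        · right; rw [h]; exact Equiv.swap_apply_left _ _)
      (by
        intro t ht1 ht2
        rw [hit t ht2]
        exact ⟨(hmin (t + 1) (by omega) (by omega)).1, hne t ht1 (by omega)⟩)
    refine ⟨a', c', fun i hi1 hi2 => ?_, ?_⟩
    · by_cases hir : i = r
      · rw [hir, h2]
        simp only [c1, Equiv.trans_apply, Equiv.swap_apply_left,
          Equiv.swap_apply_of_ne_of_ne hr1.1 hr1.2, har]
        abel
      · rw [h1 i hi1 hir]
        simp only [a1, c1, Equiv.trans_apply, Equiv.swap_apply_of_ne_of_ne hi1 hi2,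
          Equiv.swap_apply_of_ne_of_ne hi2 hir]
    · rw [h1 s hps.symm hr1.2.symm]
      simp only [a1, c1, Equiv.trans_apply, Equiv.swap_apply_left, Equiv.swap_apply_right, har]
      abel

lemma hall_step [Fintype I] (a c : I ≃ G) (p s : I) (hps : p ≠ s) (ω : G) :
    ∃ a' c' : I ≃ G, (∀ i, i ≠ p → i ≠ s → c' i - a' i = c i - a i) ∧ c' s - a' s = ω := by
  classical
  set K := c p + c s - ω with hK
  set ρ : I → I := fun i => a.symm (K - c i) with hρ
  have hinj : Function.Injective ρ := by
    intro i j hij
    simpa [hρ] using hij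
  have hex : ∃ m, ρ^[m + 1] s = p ∨ ρ^[m + 1] s = s := by
    have hmem := hinj.mem_periodicPts s
    obtain ⟨n, hn, hper⟩ := hmem
    exact ⟨n - 1, Or.inr (by rw [Nat.sub_add_cancel hn]; exact hper)⟩
  obtain ⟨a', c', h1, h2⟩ := hall_chain K p (Nat.find hex) a c s hps (Nat.find_spec hex) (by
    intro t ht1 ht2
    have := Nat.find_min hex (show t - 1 < Nat.find hex by omega)
    rw [Nat.sub_add_cancel ht1] at this
    exact not_or.mp this)
  exact ⟨a', c', h1, by rw [h2, hK]; abel⟩

/-- Hall's theorem on finite abelian groups: a list with sum zero is a difference of two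
enumerations of the group. -/
theorem hall_abelian [Fintype I] (e : I ≃ G) (w : I → G) (hw : ∑ i, w i = 0) :
    ∃ a c : I ≃ G, ∀ i, c i - a i = w i := by
  have p : I := e.symm 0
  have key : ∀ T : Finset I, ∃ a c : I ≃ G, ∀ i ∈ T, i ≠ p → c i - a i = w i := by
    intro T
    induction T using Finset.induction_on with
    | empty => exact ⟨e, e, by simp⟩
    | insert s T hs ih =>
      obtain ⟨a, c, h⟩ := ih
      by_cases hsp : p = s
      · refine ⟨a, c, fun i hi hip => ?_⟩
        rcases Finset.mem_insert.mp hi with rfl | hi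
        · exact absurd hsp.symm hip
        · exact h i hi hip
      · obtain ⟨a', c', h1, h2⟩ := hall_step a c p s hsp (w s)
        refine ⟨a', c', fun i hi hip => ?_⟩
        by_cases his : i = s
        · rw [his, h2]
        · rw [h1 i hip his]
          exact h i ((Finset.mem_insert.mp hi).resolve_left his) hip
  obtain ⟨a, c, h⟩ := key univ
  refine ⟨a, c, fun i => ?_⟩
  by_cases hip : i = p
  · have h0 : ∑ i, (c i - a i) = 0 := by
      rw [Finset.sum_sub_distrib, ← Equiv.sum_comp (c.trans a.symm) (fun i => a i)]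
      simp
    rw [← Finset.add_sum_erase _ _ (Finset.mem_univ p)] at h0 hw
    have : ∑ i ∈ univ.erase p, (c i - a i) = ∑ i ∈ univ.erase p, w i :=
      Finset.sum_congr rfl fun j hj => h j (Finset.mem_univ _) (Finset.ne_of_mem_erase hj)
    rw [this] at h0
    rw [hip]
    exact add_right_cancel (h0.trans hw.symm)
  · exact h i (Finset.mem_univ _) hip

end Pool.Agent.Lib.MP_8629a4_co
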