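import Mathlib

set_option autoImplicit false

open Finset

namespace Pool.Agent.Lib.MP_8629a4_co

lemma card_dvd_sum {G : Type*} [Group G] [Fintype G] (H : Subgroup G) (f : G → ℤ)
    (hf : ∀ g, ∀ h ∈ H, f (g * h) = f g) : (Nat.card H : ℤ) ∣ ∑ g, f g := by
  classical
  have : Fintype (G ⧸ H) := Fintype.ofFinite _
  rw [← Finset.sum_fiberwise univ (fun g : G => (g : G ⧸ H)) f]
  refine Finset.dvd_sum fun c _ => ?_
  have h1 : ∀ g ∈ univ.filter (fun g : G => (g : G ⧸ H) = c), f g = f c.out := by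
    intro g hg
    have hg' : (g : G ⧸ H) = c := (Finset.mem_filter.mp hg).2
    have : (c.out : G ⧸ H) = g := by rw [hg']; exact QuotientGroup.out_eq' c
    have h2 := hf c.out _ (QuotientGroup.eq.mp this)
    rwa [mul_inv_cancel_left] at h2
  rw [Finset.sum_congr rfl h1, Finset.sum_const, nsmul_eq_mul]
  refine Dvd.dvd.mul_right ?_ _
  have h3 := QuotientGroup.card_preimage_mk H {c}
  have h4 : Nat.card (QuotientGroup.mk ⁻¹' ({c} : Set (G ⧸ H)) : Set G)
      = #(univ.filter (fun g : G => (g : G ⧸ H) = c)) := by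
    exact Nat.subtype_card _ (fun g => by simp)
  rw [← h4, h3]
  simp

lemma factorial_dvd_sum {I : Type*} [Fintype I] [DecidableEq I] (T : Finset I) (B : I → I → ℤ) :
    ((Fintype.card I - #T).factorial : ℤ) ∣ ∑ σ : Equiv.Perm I, ∏ i ∈ T, B (σ i) i := by
  let φ : Equiv.Perm {i : I // i ∉ T} →* Equiv.Perm I := Equiv.Perm.ofSubtype
  have hc : Nat.card φ.range = (Fintype.card I - #T).factorial := by
    rw [← Nat.card_congr (MonoidHom.ofInjective (f := φ) Equiv.Perm.ofSubtype_injective).toEquiv,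
      Nat.card_eq_fintype_card, Fintype.card_perm]
    congr 1
    rw [Fintype.card_subtype_compl]
    simp
  rw [← hc]
  refine card_dvd_sum φ.range _ fun g h hh => ?_
  obtain ⟨π, rfl⟩ := hh
  refine Finset.prod_congr rfl fun i hi => ?_
  rw [Equiv.Perm.mul_apply]
  have : φ π i = i := Equiv.Perm.ofSubtype_apply_of_not_mem π (by simpa using hi)
  rw [this]

lemma exists_dvd_of_choose {p n s : ℕ} [hp : Fact p.Prime] (hs : s ≤ n)
    (hc : padicValNat p (n.choose s) ≠ 0) :
    ∃ j < s, p ^ padicValNat p (n.choose s) ∣ n - j := by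
  have hK := padicValNat_choose (p := p) hs (Nat.lt_succ_self (Nat.log p n))
  set A := {i ∈ Finset.Ico 1 (Nat.log p n).succ | p ^ i ≤ s % p ^ i + (n - s) % p ^ i} with hA
  have hne : A.Nonempty := by
    rw [← Finset.card_pos]; omega
  obtain ⟨b, hb, hmax⟩ := Finset.exists_max_image A id hne
  have hsub : A ⊆ Finset.Icc 1 b := by
    intro i hi
    have := (Finset.mem_filter.mp hi).1
    rw [Finset.mem_Ico] at this
    exact Finset.mem_Icc.mpr ⟨this.1, hmax i hi⟩
  have hle : padicValNat p (n.choose s) ≤ b := by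
    have := Finset.card_le_card hsub
    rw [Nat.card_Icc] at this
    omega
  have hcar : p ^ b ≤ s % p ^ b + (n - s) % p ^ b := (Finset.mem_filter.mp hb).2
  have hpos : 0 < p ^ b := pow_pos hp.out.pos b
  have h1 : (n - s) % p ^ b < p ^ b := Nat.mod_lt _ hpos
  have h2 : s % p ^ b < p ^ b := Nat.mod_lt _ hpos
  have h3 : s % p ^ b ≤ s := Nat.mod_le _ _
  have h4 : n % p ^ b + p ^ b = s % p ^ b + (n - s) % p ^ b := by
    have := Nat.add_mod_add_of_le_add_mod hcar
    rwa [Nat.add_sub_cancel' hs] at this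
  refine ⟨n % p ^ b, by omega, (pow_dvd_pow p hle).trans ?_⟩
  exact Nat.dvd_sub_mod n

lemma val_bound {p e k θ s : ℕ} [hp : Fact p.Prime] (hq : 2 < p ^ e)
    (hθ : p ^ (e * k) = θ * (p ^ e - 1) + 1) (hs1 : 1 ≤ s) (hs : s ≤ θ + 1) :
    padicValNat p s.factorial + padicValNat p ((θ + 1).choose s) < e * s := by
  have hp2 := hp.out.two_le
  have he : 1 ≤ e := by
    rcases Nat.eq_zero_or_pos e with rfl | h
    · simp at hq
    · exact h
  have hpe : 2 ≤ (p - 1) * e := by
    rcases Nat.lt_or_ge 1 e with h | h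
    · nlinarith [show 1 ≤ p - 1 by omega]
    · have : e = 1 := by omega
      subst this
      simp at hq
      omega
  have hv := sub_one_mul_padicValNat_factorial_lt_of_ne_zero p (show s ≠ 0 by omega)
  set v := padicValNat p s.factorial
  set c := padicValNat p ((θ + 1).choose s) with hc
  have hp1 : 0 < p - 1 := by omega
  by_cases hc0 : c = 0
  · rw [hc0, add_zero]
    refine Nat.lt_of_mul_lt_mul_left (a := p - 1) ?_
    rw [← mul_assoc]
    nlinarith
  · obtain ⟨j, hj, hdvd⟩ := exists_dvd_of_choose (p := p) hs hc0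
    rw [← hc] at hdvd
    set q := p ^ e with hqdef
    have hθ1 : 1 ≤ θ := by
      by_contra h0
      have h0' : θ = 0 := by omega
      have hs' : s = 1 := by omega
      apply hc0
      rw [hc, h0', hs']
      simp
    have hle : p ^ c ≤ p ^ (e * k) := by
      have h1 : p ^ c ≤ θ + 1 - j := Nat.le_of_dvd (by omega) hdvd
      have h2 : θ * 1 ≤ θ * (q - 1) := Nat.mul_le_mul_left _ (by omega)
      omega
    have hck : p ^ c ∣ p ^ (e * k) :=
      pow_dvd_pow p ((Nat.pow_le_pow_iff_right hp.out.one_lt).mp hle)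
    have hint : ((p ^ c : ℕ) : ℤ) ∣ ((q : ℤ) - 1) * (j - 1) + 1 := by
      have a1 : ((p ^ c : ℕ) : ℤ) ∣ ((θ + 1 - j : ℕ) : ℤ) := Int.natCast_dvd_natCast.mpr hdvd
      have a2 : ((p ^ c : ℕ) : ℤ) ∣ ((p ^ (e * k) : ℕ) : ℤ) := Int.natCast_dvd_natCast.mpr hck
      rw [Nat.cast_sub (by omega)] at a1
      rw [hθ, Nat.cast_add, Nat.cast_mul, Nat.cast_sub (by omega)] at a2
      have := dvd_sub a2 (a1.mul_left ((q : ℤ) - 1))
      have e2 : (θ : ℤ) * ((q : ℤ) - ((1:ℕ):ℤ)) + ((1:ℕ):ℤ)
          - ((q : ℤ) - 1) * (((θ + 1 : ℕ) : ℤ) - j) = ((q : ℤ) - 1) * (j - 1) + 1 := by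
        push_cast; ring
      rwa [e2] at this
    rcases Nat.eq_zero_or_pos j with rfl | hj0
    · have h2 : ((p ^ c : ℕ) : ℤ) ∣ (2 : ℤ) - q := by
        have e2 : ((q : ℤ) - 1) * (((0:ℕ):ℤ) - 1) + 1 = 2 - q := by push_cast; ring
        rwa [e2] at hint
      have hpq : (p : ℤ) ∣ (q : ℤ) := Int.natCast_dvd_natCast.mpr (dvd_pow_self p (by omega))
      have hpc : (p : ℤ) ∣ ((p ^ c : ℕ) : ℤ) := Int.natCast_dvd_natCast.mpr (dvd_pow_self p hc0)
      have hp2' : (p : ℤ) ∣ 2 := by
        have := dvd_add (hpc.trans h2) hpq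
        simpa using this
      have hpeq : p = 2 := by
        have : p ∣ 2 := by exact_mod_cast hp2'
        exact le_antisymm (Nat.le_of_dvd two_pos this) hp2
      have he2 : 2 ≤ e := by simpa [hpeq] using hpe
      have hc1 : c ≤ 1 := by
        by_contra hcon
        have b1 : ((p ^ 2 : ℕ) : ℤ) ∣ ((p ^ c : ℕ) : ℤ) :=
          Int.natCast_dvd_natCast.mpr (pow_dvd_pow p (by omega))
        have b2 : ((p ^ 2 : ℕ) : ℤ) ∣ (q : ℤ) := Int.natCast_dvd_natCast.mpr (pow_dvd_pow p he2)
        have := dvd_add (b1.trans h2) b2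
        rw [hpeq] at this
        norm_num at this
      rw [hpeq] at hv
      nlinarith
    · have h2 : p ^ c ∣ (q - 1) * (j - 1) + 1 := by
        rw [← Int.natCast_dvd_natCast]
        push_cast [Nat.cast_sub (show 1 ≤ q by omega), Nat.cast_sub hj0]
        simpa using hint
      have hj2 : 2 ≤ j := by
        by_contra hcon
        have : j = 1 := by omega
        rw [this] at h2
        simp only [Nat.sub_self, mul_zero, zero_add, Nat.dvd_one] at h2
        have := Nat.one_lt_pow hc0 hp.out.one_lt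
        omega
      have h3 : p ^ c ≤ q * (s - 2) := by
        have a1 := Nat.le_of_dvd (by omega) h2
        have a2 : (q - 1) * (j - 1) + (j - 1) = q * (j - 1) := by
          rw [← Nat.succ_mul]; congr 1; omega
        have a3 : q * (j - 1) ≤ q * (s - 2) := Nat.mul_le_mul_left _ (by omega)
        omega
      have h4 : (p - 1) * (c - e) + 3 ≤ s := by
        rcases Nat.lt_or_ge c e with h | h
        · rw [show c - e = 0 by omega]; omega
        · have a1 : p ^ c = q * p ^ (c - e) := by rw [hqdef, ← pow_add]; congr 1; omega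
          rw [a1] at h3
          have a2 : p ^ (c - e) ≤ s - 2 := Nat.le_of_mul_le_mul_left h3 (by omega)
          have a3 : 1 + (c - e) * (p - 1) ≤ (1 + (p - 1)) ^ (c - e) := by
            have := one_add_mul_le_pow (R := ℤ) (a := ((p - 1 : ℕ) : ℤ)) (by omega) (c - e)
            exact_mod_cast this
          rw [show 1 + (p - 1) = p by omega, mul_comm] at a3
          omega
      refine Nat.lt_of_mul_lt_mul_left (a := p - 1) ?_
      have a4 : c ≤ (c - e) + e := by omega
      have a5 : (p - 1) * c ≤ (p - 1) * (c - e) + (p - 1) * e := by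
        rw [← mul_add]; exact Nat.mul_le_mul_left _ a4
      obtain ⟨s', rfl⟩ : ∃ s', s = s' + 1 := ⟨s - 1, by omega⟩
      rw [mul_add, ← mul_assoc, mul_add, mul_one]
      nlinarith

/-- The permanent of q B - J does not vanish when the size is one more than the number of
points of a projective space over a field with q elements and q is larger than two. -/
theorem perm_ne_zero {I : Type*} [Fintype I] [DecidableEq I] {p e k θ : ℕ} [hp : Fact p.Prime]
    (hq : 2 < p ^ e) (hθ : p ^ (e * k) = θ * (p ^ e - 1) + 1) (hI : Fintype.card I = θ + 1)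
    (B : I → I → ℤ) :
    ∑ σ : Equiv.Perm I, ∏ i, (((p ^ e : ℕ) : ℤ) * B (σ i) i - 1) ≠ 0 := by
  set n := θ + 1 with hn
  have e1 : ∀ σ : Equiv.Perm I, ∏ i, (((p ^ e : ℕ) : ℤ) * B (σ i) i - 1)
      = ∑ T : Finset I, (-1) ^ (n - #T) * (((p ^ e : ℕ) : ℤ) ^ #T * ∏ i ∈ T, B (σ i) i) := by
    intro σ
    simp only [sub_eq_add_neg]
    rw [Fintype.prod_add]
    refine Finset.sum_congr rfl fun T _ => ?_
    rw [Finset.prod_mul_distrib, Finset.prod_const, Finset.prod_const, Finset.card_compl, hI]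
    ring
  simp only [e1]
  rw [Finset.sum_comm]
  simp only [← Finset.mul_sum]
  rw [← Finset.add_sum_erase _ _ (Finset.mem_univ (∅ : Finset I))]
  set a := padicValNat p n.factorial with ha
  have hdvd : ((p ^ (a + 1) : ℕ) : ℤ) ∣ ∑ T ∈ univ.erase (∅ : Finset I),
      (-1) ^ (n - #T) * (((p ^ e : ℕ) : ℤ) ^ #T * ∑ σ : Equiv.Perm I, ∏ i ∈ T, B (σ i) i) := by
    refine Finset.dvd_sum fun T hT => Dvd.dvd.mul_left ?_ _
    have hT1 : 1 ≤ #T :=
      Finset.card_pos.mpr (Finset.nonempty_iff_ne_empty.mpr (Finset.ne_of_mem_erase hT))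
    have hT2 : #T ≤ n := hI ▸ Finset.card_le_univ T
    have h1 := factorial_dvd_sum T B
    rw [hI] at h1
    refine dvd_trans ?_ (mul_dvd_mul_left _ h1)
    rw [← Nat.cast_pow, ← Nat.cast_mul, Int.natCast_dvd_natCast]
    have hb := val_bound (s := #T) hq hθ hT1 hT2
    have h2 : a = padicValNat p (n.choose #T) + padicValNat p (#T).factorial
        + padicValNat p (n - #T).factorial := by
      rw [ha, ← Nat.choose_mul_factorial_mul_factorial hT2,
        padicValNat.mul (mul_ne_zero (Nat.choose_pos hT2).ne' (Nat.factorial_ne_zero _))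
          (Nat.factorial_ne_zero _),
        padicValNat.mul (Nat.choose_pos hT2).ne' (Nat.factorial_ne_zero _)]
    have h3 : a + 1 ≤ e * #T + padicValNat p (n - #T).factorial := by
      rw [← hn] at hb
      omega
    refine (pow_dvd_pow p h3).trans ?_
    rw [pow_add, pow_mul]
    exact mul_dvd_mul_left _ pow_padicValNat_dvd
  intro h0
  have h5 : ((p ^ (a + 1) : ℕ) : ℤ) ∣ (-1) ^ (n - #(∅ : Finset I)) *
      (((p ^ e : ℕ) : ℤ) ^ #(∅ : Finset I) *
        ∑ σ : Equiv.Perm I, ∏ i ∈ (∅ : Finset I), B (σ i) i) := by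
    rw [eq_neg_of_add_eq_zero_left h0]
    exact hdvd.neg_right
  simp only [Finset.card_empty, pow_zero, one_mul, Finset.prod_empty, Finset.sum_const,
    Finset.card_univ, Fintype.card_perm, hI, nsmul_eq_mul, mul_one] at h5
  rw [(isUnit_one.neg.pow _).dvd_mul_left, Int.natCast_dvd_natCast] at h5
  exact pow_succ_padicValNat_not_dvd (Nat.factorial_ne_zero n) h5

end Pool.Agent.Lib.MP_8629a4_co
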