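import Mathlib
import Pool.Agent.Lib.MP_8629a4_co.Hall
import Pool.Agent.Lib.MP_8629a4_co.Perm

set_option autoImplicit false

open Finset
open scoped LinearAlgebra.Projectivization

namespace Pool.Agent.Lib.MP_8629a4_co

variable {F : Type*} [Field F] [Fintype F] [DecidableEq F] {k : ℕ}

/-- The projective class of a vector, with the zero vector as an extra class. -/
noncomputable def cls (x : Fin k → F) : Option (ℙ F (Fin k → F)) :=
  if h : x = 0 then none else some (Projectivization.mk F x h)

omit [Fintype F] in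
lemma cls_eq {x y : Fin k → F} (h : cls x = cls y) : ∃ a : F, a ≠ 0 ∧ x = a • y := by
  unfold cls at h
  by_cases hx : x = 0 <;> by_cases hy : y = 0
  · exact ⟨1, one_ne_zero, by simp [hx, hy]⟩
  · simp [hx, hy] at h
  · simp [hx, hy] at h
  · rw [dif_neg hx, dif_neg hy, Option.some_inj, Projectivization.mk_eq_mk_iff] at h
    obtain ⟨a, ha⟩ := h
    exact ⟨a, a.ne_zero, ha.symm⟩

/-- The mean zero function attached to the origin of the field. -/
def gg (s : F) : ℤ := (Fintype.card F : ℤ) * (if s = 0 then 1 else 0) - 1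

lemma sum_gg (c : F) : ∑ t : F, gg (c + t) = 0 := by
  rw [← Equiv.sum_comp (Equiv.addLeft (-c)) (fun t => gg (c + t))]
  simp [gg, Finset.sum_sub_distrib]

lemma sum_gg_gg (c d : F) :
    ∑ t : F, gg (c + t) * gg (c + t + d) = Fintype.card F * gg d := by
  rw [← Equiv.sum_comp (Equiv.addLeft (-c)) (fun t => gg (c + t) * gg (c + t + d))]
  have h := sum_gg d
  have e : ∀ t : F, gg t * gg (t + d)
      = (if t = 0 then (Fintype.card F : ℤ) * gg d else 0) - gg (d + t) := by
    intro t
    rw [add_comm d t]
    by_cases ht : t = 0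
    · simp [gg, ht]; ring
    · simp [gg, ht]
  simp only [Equiv.coe_addLeft, add_neg_cancel_left, e, Finset.sum_sub_distrib, h,
    Finset.sum_ite_eq', Finset.mem_univ, if_true, sub_zero]

omit [DecidableEq F] in
lemma shift_sum (G : (Fin k → F) → ℤ) (u : Fin k → F) :
    (Fintype.card F : ℤ) * ∑ x, G x = ∑ x, ∑ t : F, G (x + t • u) := by
  rw [Finset.sum_comm]
  have : ∀ t : F, ∑ x, G (x + t • u) = ∑ x, G x := fun t =>
    Equiv.sum_comp (Equiv.addRight (t • u)) G
  simp [this]

omit [Fintype F] [DecidableEq F] in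
lemma exists_dot_one {a : Fin k → F} (ha : a ≠ 0) : ∃ u : Fin k → F, a ⬝ᵥ u = 1 := by
  obtain ⟨i, hi⟩ := Function.ne_iff.mp ha
  refine ⟨Pi.single i (a i)⁻¹, ?_⟩
  rw [dotProduct_single]
  exact mul_inv_cancel₀ hi

omit [Fintype F] [DecidableEq F] in
lemma exists_dot_zero_one {a b : ℙ F (Fin k → F)} (hab : a ≠ b) :
    ∃ u : Fin k → F, a.rep ⬝ᵥ u = 0 ∧ b.rep ⬝ᵥ u = 1 := by
  obtain ⟨i, hi⟩ := Function.ne_iff.mp a.rep_nonzero
  have hi' : a.rep i ≠ 0 := hi
  by_cases h : ∀ j, a.rep i * b.rep j - a.rep j * b.rep i = 0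
  · exfalso
    apply hab
    rw [← a.mk_rep, ← b.mk_rep, eq_comm, Projectivization.mk_eq_mk_iff']
    refine ⟨b.rep i / a.rep i, ?_⟩
    funext j
    have := h j
    simp only [Pi.smul_apply, smul_eq_mul]
    field_simp
    linear_combination -this
  · push Not at h
    obtain ⟨j, hj⟩ := h
    refine ⟨(a.rep i * b.rep j - a.rep j * b.rep i)⁻¹ •
      (Pi.single j (a.rep i) - Pi.single i (a.rep j)), ?_, ?_⟩
    · rw [dotProduct_smul, dotProduct_sub, dotProduct_single, dotProduct_single]
      simp [mul_comm]
    · rw [dotProduct_smul, dotProduct_sub, dotProduct_single, dotProduct_single, smul_eq_mul,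
        mul_comm (b.rep j), mul_comm (b.rep i)]
      exact inv_mul_cancel₀ hj

/-- Test functions indexed by the dual points and one extra index. -/
noncomputable def phi (c : ℤ) (j : Option (ℙ F (Fin k → F))) (x : Fin k → F) : ℤ :=
  j.elim c (fun ξ => gg (ξ.rep ⬝ᵥ x))

/-- Incidence indicator. -/
noncomputable def inc (j : Option (ℙ F (Fin k → F))) (v : Fin k → F) : ℤ :=
  j.elim 0 (fun ξ => if ξ.rep ⬝ᵥ v = 0 then 1 else 0)

lemma phi_cls (c : ℤ) (j : Option (ℙ F (Fin k → F))) {x y : Fin k → F} (h : cls x = cls y) :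
    phi c j x = phi c j y := by
  obtain ⟨a, ha, rfl⟩ := cls_eq h
  cases j with
  | none => rfl
  | some ξ => simp [phi, gg, ha]

lemma corr [DecidableEq (Option (ℙ F (Fin k → F)))] (a b : Option (ℙ F (Fin k → F)))
    (v : Fin k → F) :
    ∑ x, phi 1 a x * phi (-1) b (x + v)
      = if a = b then (Fintype.card F : ℤ) ^ k * ((Fintype.card F : ℤ) * inc a v - 1) else 0 := by
  have hq : (Fintype.card F : ℤ) ≠ 0 := by exact_mod_cast Fintype.card_ne_zero
  cases a with
  | none =>
    cases b with
    | none => simp [phi, inc]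
    | some η =>
      rw [if_neg (by simp)]
      obtain ⟨u, hu⟩ := exists_dot_one η.rep_nonzero
      refine mul_left_cancel₀ hq ?_
      rw [shift_sum _ u, mul_zero]
      refine Finset.sum_eq_zero fun x _ => ?_
      have := sum_gg (η.rep ⬝ᵥ (x + v))
      rw [← this]
      refine Finset.sum_congr rfl fun t _ => ?_
      simp only [phi, Option.elim, one_mul]
      rw [add_right_comm, dotProduct_add _ (x + v), dotProduct_smul, hu, smul_eq_mul, mul_one]
  | some ξ =>
    cases b with
    | none =>
      rw [if_neg (by simp)]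
      obtain ⟨u, hu⟩ := exists_dot_one ξ.rep_nonzero
      refine mul_left_cancel₀ hq ?_
      rw [shift_sum _ u, mul_zero]
      refine Finset.sum_eq_zero fun x _ => ?_
      have := sum_gg (ξ.rep ⬝ᵥ x)
      simp only [phi, Option.elim, mul_neg, mul_one, Finset.sum_neg_distrib, neg_eq_zero]
      rw [← this]
      refine Finset.sum_congr rfl fun t _ => ?_
      rw [dotProduct_add, dotProduct_smul, hu, smul_eq_mul, mul_one]
    | some η =>
      by_cases h : ξ = η
      · subst h
        rw [if_pos rfl]
        obtain ⟨u, hu⟩ := exists_dot_one ξ.rep_nonzero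
        refine mul_left_cancel₀ hq ?_
        rw [shift_sum _ u]
        have : ∀ x : Fin k → F, ∑ t : F,
            phi 1 (some ξ) (x + t • u) * phi (-1) (some ξ) (x + t • u + v)
            = Fintype.card F * gg (ξ.rep ⬝ᵥ v) := by
          intro x
          rw [← sum_gg_gg (ξ.rep ⬝ᵥ x)]
          refine Finset.sum_congr rfl fun t _ => ?_
          simp only [phi, Option.elim, dotProduct_add, dotProduct_smul, hu, smul_eq_mul, mul_one]
        simp only [this, Finset.sum_const, Finset.card_univ, Fintype.card_pi, Finset.prod_const,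
          Fintype.card_fin, nsmul_eq_mul, gg, inc, Option.elim]
        push_cast
        ring
      · rw [if_neg (by simpa using h)]
        obtain ⟨u, hu0, hu1⟩ := exists_dot_zero_one h
        refine mul_left_cancel₀ hq ?_
        rw [shift_sum _ u, mul_zero]
        refine Finset.sum_eq_zero fun x _ => ?_
        have := sum_gg (η.rep ⬝ᵥ (x + v))
        rw [← mul_zero (gg (ξ.rep ⬝ᵥ x)), ← this, Finset.mul_sum]
        refine Finset.sum_congr rfl fun t _ => ?_
        simp only [phi, Option.elim]
        rw [add_right_comm x, dotProduct_add _ (x + v), dotProduct_add ξ.rep, dotProduct_smul,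
          dotProduct_smul, hu0, hu1, smul_eq_mul, smul_eq_mul, mul_one, mul_zero, add_zero]

omit [DecidableEq F] in
lemma card_proj : Fintype.card F ^ k
    = Nat.card (ℙ F (Fin k → F)) * (Fintype.card F - 1) + 1 := by
  have := Projectivization.card' F (Fin k → F)
  simpa [Nat.card_eq_fintype_card] using this

theorem key_big (hq : 2 < Fintype.card F) (v : Option (ℙ F (Fin k → F)) → (Fin k → F)) :
    ∃ x : Option (ℙ F (Fin k → F)) → (Fin k → F),
      Function.Injective (fun i => cls (x i)) ∧ Function.Injective (fun i => cls (x i + v i)) := by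
  classical
  have : Fintype (ℙ F (Fin k → F)) := Fintype.ofFinite _
  obtain ⟨p, hpc, e, hp, he⟩ := FiniteField.card' F
  have : Fact p.Prime := ⟨hp⟩
  by_contra hcon
  push Not at hcon
  let O := Option (ℙ F (Fin k → F))
  let A : ℤ → (O → (Fin k → F)) → Matrix O O ℤ := fun c x => Matrix.of fun j i => phi c j (x i)
  have hA : ∀ c x, ¬ Function.Injective (fun i => cls (x i)) → (A c x).det = 0 := by
    intro c x hx
    obtain ⟨i, j, hij, hne⟩ := Function.not_injective_iff.mp hx
    exact Matrix.det_zero_of_column_eq hne fun l => phi_cls c l hij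
  have h0 : ∑ x : O → (Fin k → F), (A 1 x).det * (A (-1) (fun i => x i + v i)).det = 0 := by
    refine Finset.sum_eq_zero fun x _ => ?_
    by_cases hx : Function.Injective (fun i => cls (x i))
    · rw [hA (-1) _ (hcon x hx), mul_zero]
    · rw [hA 1 x hx, zero_mul]
  have h1 : ∑ x : O → (Fin k → F), (A 1 x).det * (A (-1) (fun i => x i + v i)).det
      = ∑ σ : Equiv.Perm O, ∑ τ : Equiv.Perm O, ((Equiv.Perm.sign σ : ℤ) * Equiv.Perm.sign τ) *
          ∏ i, ∑ y : Fin k → F, phi 1 (σ i) y * phi (-1) (τ i) (y + v i) := by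
    simp only [Matrix.det_apply', Finset.sum_mul_sum]
    rw [Finset.sum_comm]
    refine Finset.sum_congr rfl fun σ _ => ?_
    rw [Finset.sum_comm]
    refine Finset.sum_congr rfl fun τ _ => ?_
    rw [Fintype.prod_sum (fun (i : O) (y : Fin k → F) => phi 1 (σ i) y * phi (-1) (τ i) (y + v i)),
      Finset.mul_sum]
    refine Finset.sum_congr rfl fun x _ => ?_
    simp only [A, Matrix.of_apply, Finset.prod_mul_distrib, Int.cast_id]
    ring
  have h2 : ∀ σ : Equiv.Perm O, ∑ τ : Equiv.Perm O,
      ((Equiv.Perm.sign σ : ℤ) * Equiv.Perm.sign τ) *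
          ∏ i, ∑ y : Fin k → F, phi 1 (σ i) y * phi (-1) (τ i) (y + v i)
      = ((Fintype.card F : ℤ) ^ k) ^ Fintype.card O *
          ∏ i, ((Fintype.card F : ℤ) * inc (σ i) (v i) - 1) := by
    intro σ
    rw [Finset.sum_eq_single σ]
    · simp only [corr, if_true]
      rw [Finset.prod_mul_distrib, Finset.prod_const, Finset.card_univ, ← Units.val_mul,
        Int.units_mul_self, Units.val_one, one_mul]
    · intro τ _ hτ
      obtain ⟨i, hi⟩ : ∃ i, σ i ≠ τ i := by
        by_contra hh
        push Not at hh
        exact hτ (Equiv.ext fun i => (hh i).symm)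
      rw [Finset.prod_eq_zero (Finset.mem_univ i) (by rw [corr, if_neg hi]), mul_zero]
    · simp
  rw [h1] at h0
  simp only [h2, ← Finset.mul_sum] at h0
  have hq0 : (Fintype.card F : ℤ) ≠ 0 := by exact_mod_cast Fintype.card_ne_zero
  have h3 := (mul_eq_zero.mp h0).resolve_left (pow_ne_zero _ (pow_ne_zero _ hq0))
  have hθ := card_proj (F := F) (k := k)
  rw [he] at hq h3
  rw [he, ← pow_mul] at hθ
  exact perm_ne_zero (I := O) hq hθ (by simp [O, Nat.card_eq_fintype_card])
    (fun j i => inc j (v i)) h3

lemma cls_inj_two (hq : Fintype.card F = 2) : Function.Injective (cls (F := F) (k := k)) := by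
  intro x y h
  obtain ⟨a, ha, rfl⟩ := cls_eq h
  have : a = 1 := by
    have h1 := FiniteField.pow_card_sub_one_eq_one a ha
    rwa [hq, show 2 - 1 = 1 from rfl, pow_one] at h1
  rw [this, one_smul]

/-- Every list indexed by the points and one extra index has a system of pairs with distinct
projective classes on each side whose spans contain the requested vectors. -/
theorem key (v : Option (ℙ F (Fin k → F)) → (Fin k → F)) :
    ∃ x y : Option (ℙ F (Fin k → F)) → (Fin k → F),
      Function.Injective (fun i => cls (x i)) ∧ Function.Injective (fun i => cls (y i)) ∧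
      ∀ i, ∃ a b : F, v i = a • x i + b • y i := by
  classical
  have : Fintype (ℙ F (Fin k → F)) := Fintype.ofFinite _
  rcases (show 2 ≤ Fintype.card F from Fintype.one_lt_card).lt_or_eq with hq | hq
  · obtain ⟨x, h1, h2⟩ := key_big hq v
    exact ⟨x, fun i => x i + v i, h1, h2, fun i => ⟨-1, 1, by simp⟩⟩
  · have hθ := card_proj (F := F) (k := k)
    have hc : Fintype.card (Option (ℙ F (Fin k → F))) = Fintype.card (Fin k → F) := by
      rw [Fintype.card_option, Fintype.card_pi, Finset.prod_const, Finset.card_univ,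
        Fintype.card_fin, hθ, ← hq, Nat.card_eq_fintype_card]
      omega
    let e := Fintype.equivOfCardEq hc
    let w : Option (ℙ F (Fin k → F)) → (Fin k → F) :=
      fun i => v i - if i = none then ∑ j, v j else 0
    have hw : ∑ i, w i = 0 := by
      simp [w, Finset.sum_sub_distrib]
    obtain ⟨a, c, h⟩ := hall_abelian e w hw
    refine ⟨fun i => a i - a none - v none, fun i => c i - a none - v none, ?_, ?_, fun i => ?_⟩
    · refine (cls_inj_two hq.symm).comp fun i j hij => ?_
      simpa using hij
    · refine (cls_inj_two hq.symm).comp fun i j hij => ?_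
      simpa using hij
    · by_cases hi : i = none
      · exact ⟨-1, 0, by simp [hi]⟩
      · refine ⟨-1, 1, ?_⟩
        have := h i
        simp only [w, if_neg hi, sub_zero] at this
        rw [← this]
        simp

end Pool.Agent.Lib.MP_8629a4_co
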